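import Pool.Agent.helper17.MLG.Spec

/-! Row mlg:CTV: mollification decreases the total variation -/

set_option autoImplicit false
set_option linter.unusedSectionVars false

namespace Pool.Agent.MLG

open MeasureTheory Set Filter Topology Module
open scoped ENNReal ContDiff

section

variable {V : Type} [NormedAddCommGroup V] [InnerProductSpace ℝ V] [FiniteDimensional ℝ V] [MeasurableSpace V]
  [BorelSpace V] [Group V]

/-- left translates of admissible fields -/
theorem CTV_adm (hV : IsLie V) {a : V → V} (ha : Adm a) (g : V) : Adm (fun y => a (g * y)) := by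
  haveI := top hV
  refine ⟨?_, ?_, fun x => ha.le_one _⟩
  · exact ha.smooth.comp ((smooth_left hV g).of_le (by exact_mod_cast le_top))
  · exact ha.supp.comp_homeomorph (Homeomorph.mulLeft g)

/-- Fubini -/
theorem CTV_fubini (hMES : MES_stmt) (hIBP : IBP_stmt) (hDLI : DLI_stmt) (hV : IsLie V) {m u : V → ℝ}
    (hm : Mol m) (hu : IsU u) {a : V → V} (ha : Adm a) :
    ∫ x, cv m u x * dvg a x ∂(vol V) =
      ∫ g, m g * ∫ y, u y * dvg (fun z => a (g * z)) y ∂(vol V) ∂(vol V) := by
  haveI := top hV
  obtain ⟨hHaar, _, _⟩ := hMES V hV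
  haveI := hHaar
  haveI : ProperSpace V := FiniteDimensional.proper_real V
  obtain ⟨hdc, hds, _⟩ := hIBP V hV a ha.smooth ha.supp
  have hmi : Integrable m (vol V) := hm.smooth.continuous.integrable_of_hasCompactSupport hm.supp
  have hdi : Integrable (dvg a) (vol V) := hdc.integrable_of_hasCompactSupport hds
  have hmeas : Measurable (fun p : V × V => u (p.2⁻¹ * p.1)) := by
    apply hu.meas.comp
    exact (continuous_snd.inv.mul continuous_fst).measurable
  have hint : Integrable (Function.uncurry fun (x g : V) => m g * u (g⁻¹ * x) * dvg a x)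
      ((vol V).prod (vol V)) := by
    have h1 : Integrable (fun z : V × V => dvg a z.1 * m z.2) ((vol V).prod (vol V)) := hdi.mul_prod hmi
    refine h1.mono ?_ ?_
    · apply Measurable.aestronglyMeasurable
      exact ((hm.smooth.continuous.measurable.comp measurable_snd).mul hmeas).mul
        (hdc.measurable.comp measurable_fst)
    · refine Filter.Eventually.of_forall fun z => ?_
      show ‖m z.2 * u (z.2⁻¹ * z.1) * dvg a z.1‖ ≤ ‖dvg a z.1 * m z.2‖
      rw [norm_mul, norm_mul, norm_mul, mul_comm ‖dvg a z.1‖]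
      apply mul_le_mul_of_nonneg_right _ (norm_nonneg _)
      calc ‖m z.2‖ * ‖u (z.2⁻¹ * z.1)‖ ≤ ‖m z.2‖ * 1 := by
            apply mul_le_mul_of_nonneg_left _ (norm_nonneg _)
            rw [Real.norm_eq_abs, abs_of_nonneg (hu.nonneg _)]
            exact hu.le_one _
        _ = ‖m z.2‖ := mul_one _
  have h1 : ∫ x, cv m u x * dvg a x ∂(vol V) =
      ∫ x, ∫ g, m g * u (g⁻¹ * x) * dvg a x ∂(vol V) ∂(vol V) := by
    apply integral_congr_ae
    refine Filter.Eventually.of_forall fun x => ?_
    show cv m u x * dvg a x = _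
    unfold cv
    rw [← integral_mul_const]
  rw [h1, integral_integral_swap hint]
  apply integral_congr_ae
  refine Filter.Eventually.of_forall fun g => ?_
  show ∫ x, m g * u (g⁻¹ * x) * dvg a x ∂(vol V) = _
  have h2 : ∫ x, m g * u (g⁻¹ * x) * dvg a x ∂(vol V) = m g * ∫ x, u (g⁻¹ * x) * dvg a x ∂(vol V) := by
    rw [← integral_const_mul]
    apply integral_congr_ae
    refine Filter.Eventually.of_forall fun x => ?_
    show m g * u (g⁻¹ * x) * dvg a x = m g * (u (g⁻¹ * x) * dvg a x)
    ring
  rw [h2, ← integral_mul_left_eq_self (fun x => u (g⁻¹ * x) * dvg a x) g]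
  congr 1
  apply integral_congr_ae
  refine Filter.Eventually.of_forall fun y => ?_
  show u (g⁻¹ * (g * y)) * dvg a (g * y) = u y * dvg (fun z => a (g * z)) y
  rw [inv_mul_cancel_left, hDLI V hV a ha.smooth ha.supp]

end

theorem CTV (hMES : MES_stmt) (hIBP : IBP_stmt) (hDLI : DLI_stmt) : CTV_stmt := by
  intro V _ _ _ _ _ _ hV m u hm hu
  haveI := top hV
  obtain ⟨hHaar, _, _⟩ := hMES V hV
  haveI := hHaar
  haveI : ProperSpace V := FiniteDimensional.proper_real V
  by_cases htop : tv u = ⊤
  · rw [htop]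
    exact le_top
  have hle : ∀ a : V → V, Adm a → ∫ x, u x * dvg a x ∂(vol V) ≤ (tv u).toReal := by
    intro a ha
    have h1 : ENNReal.ofReal (∫ x, u x * dvg a x ∂(vol V)) ≤ tv u :=
      le_iSup₂_of_le a ha le_rfl
    have h2 := ENNReal.toReal_mono htop h1
    exact (le_max_left _ _).trans (by rwa [ENNReal.toReal_ofReal'] at h2)
  refine iSup₂_le fun a ha => ?_
  rw [CTV_fubini hMES hIBP hDLI hV hm hu ha]
  have hmi : Integrable m (vol V) := hm.smooth.continuous.integrable_of_hasCompactSupport hm.supp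
  have h3 : ∫ g, m g * ∫ y, u y * dvg (fun z => a (g * z)) y ∂(vol V) ∂(vol V) ≤ (tv u).toReal := by
    by_cases hi : Integrable (fun g => m g * ∫ y, u y * dvg (fun z => a (g * z)) y ∂(vol V)) (vol V)
    · calc ∫ g, m g * ∫ y, u y * dvg (fun z => a (g * z)) y ∂(vol V) ∂(vol V)
          ≤ ∫ g, m g * (tv u).toReal ∂(vol V) := by
            apply integral_mono hi (hmi.mul_const _)
            intro g
            exact mul_le_mul_of_nonneg_left (hle _ (CTV_adm hV ha g)) (hm.nonneg g)
        _ = (tv u).toReal := by rw [integral_mul_const, hm.int, one_mul]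
    · rw [integral_undef hi]
      exact ENNReal.toReal_nonneg
  calc ENNReal.ofReal (∫ g, m g * ∫ y, u y * dvg (fun z => a (g * z)) y ∂(vol V) ∂(vol V))
      ≤ ENNReal.ofReal (tv u).toReal := ENNReal.ofReal_le_ofReal h3
    _ = tv u := ENNReal.ofReal_toReal htop

end Pool.Agent.MLG
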