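import Pool.Agent.helper17.MLG.Spec

/-! Row mlg:THK: thickening -/

set_option autoImplicit false
set_option linter.unusedSectionVars false

namespace Pool.Agent.MLG

open MeasureTheory Set Filter Topology Module
open scoped ENNReal ContDiff

section

variable {V : Type} [NormedAddCommGroup V] [InnerProductSpace ℝ V] [FiniteDimensional ℝ V] [MeasurableSpace V]
  [BorelSpace V] [Group V]

/-- the neighbourhoods -/
def THK_B (k : ℕ) : Set V := Metric.closedBall (1 : V) (1 / ((k : ℝ) + 1))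

theorem THK_one (k : ℕ) : (1 : V) ∈ (THK_B k : Set V) :=
  Metric.mem_closedBall_self (by positivity)

theorem THK_nhds (k : ℕ) : (THK_B k : Set V) ∈ 𝓝 (1 : V) :=
  Metric.closedBall_mem_nhds _ (by positivity)

theorem THK_anti : Antitone (fun k : ℕ => (THK_B k : Set V)) := by
  intro k l hkl
  apply Metric.closedBall_subset_closedBall
  apply one_div_le_one_div_of_le (by positivity)
  have : (k : ℝ) ≤ l := by exact_mod_cast hkl
  linarith

/-- every neighbourhood of 1 contains one of them -/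
theorem THK_small {U : Set V} (hU : U ∈ 𝓝 (1 : V)) : ∃ k : ℕ, (THK_B k : Set V) ⊆ U := by
  obtain ⟨ε, hε, h⟩ := Metric.mem_nhds_iff.1 hU
  obtain ⟨k, hk⟩ := exists_nat_one_div_lt hε
  exact ⟨k, (Metric.closedBall_subset_ball hk).trans h⟩

theorem THK_out (hMES : MES_stmt) (hV : IsLie V) {S : Set V} (hS : IsCompact S) :
    Tendsto (fun k : ℕ => vol V {x | ∃ g ∈ (THK_B k : Set V), g⁻¹ * x ∈ S}) atTop (𝓝 (vol V S)) := by
  haveI := top hV
  haveI := (hMES V hV).1
  haveI : ProperSpace V := FiniteDimensional.proper_real V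
  have hc : ∀ k : ℕ, IsCompact {x : V | ∃ g ∈ (THK_B k : Set V), g⁻¹ * x ∈ S} := by
    intro k
    have h1 : IsCompact ((fun p : V × V => p.1 * p.2) '' ((THK_B k : Set V) ×ˢ S)) :=
      ((isCompact_closedBall _ _).prod hS).image continuous_mul
    have h2 : {x : V | ∃ g ∈ (THK_B k : Set V), g⁻¹ * x ∈ S} =
        (fun p : V × V => p.1 * p.2) '' ((THK_B k : Set V) ×ˢ S) := by
      ext x
      constructor
      · rintro ⟨g, hg, hx⟩
        exact ⟨(g, g⁻¹ * x), ⟨hg, hx⟩, mul_inv_cancel_left g x⟩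
      · rintro ⟨⟨g, y⟩, ⟨hg, hy⟩, rfl⟩
        refine ⟨g, hg, ?_⟩
        show g⁻¹ * (g * y) ∈ S
        rw [inv_mul_cancel_left]
        exact hy
    rw [h2]
    exact h1
  have hI : (⋂ k : ℕ, {x : V | ∃ g ∈ (THK_B k : Set V), g⁻¹ * x ∈ S}) = S := by
    apply Subset.antisymm
    · intro x hx
      by_contra hxS
      have h1 : {g : V | g⁻¹ * x ∈ Sᶜ} ∈ 𝓝 (1 : V) := by
        have hcont : Continuous (fun g : V => g⁻¹ * x) := continuous_inv.mul continuous_const
        apply (hS.isClosed.isOpen_compl.preimage hcont).mem_nhds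
        show (1 : V)⁻¹ * x ∈ Sᶜ
        rw [inv_one, one_mul]
        exact hxS
      obtain ⟨k, hk⟩ := THK_small h1
      obtain ⟨g, hg, hgx⟩ := Set.mem_iInter.1 hx k
      exact hk hg hgx
    · intro x hx
      refine Set.mem_iInter.2 fun k => ⟨1, THK_one k, ?_⟩
      rw [inv_one, one_mul]
      exact hx
  have h := tendsto_measure_iInter_atTop (μ := vol V)
    (s := fun k : ℕ => {x : V | ∃ g ∈ (THK_B k : Set V), g⁻¹ * x ∈ S})
    (fun k => (hc k).measurableSet.nullMeasurableSet)
    (fun k l hkl x hx => by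
      obtain ⟨g, hg, hgx⟩ := hx
      exact ⟨g, THK_anti hkl hg, hgx⟩)
    ⟨0, (hc 0).measure_lt_top.ne⟩
  rw [hI] at h
  exact h

theorem THK_in (hV : IsLie V) {O : Set V} (hO : IsOpen O) :
    Tendsto (fun k : ℕ => vol V {x | ∀ g ∈ (THK_B k : Set V), g⁻¹ * x ∈ O}) atTop (𝓝 (vol V O)) := by
  haveI := top hV
  have hI : (⋃ k : ℕ, {x : V | ∀ g ∈ (THK_B k : Set V), g⁻¹ * x ∈ O}) = O := by
    apply Subset.antisymm
    · intro x hx
      obtain ⟨k, hk⟩ := Set.mem_iUnion.1 hx
      have h1 := hk 1 (THK_one k)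
      rwa [inv_one, one_mul] at h1
    · intro x hx
      have h1 : {g : V | g⁻¹ * x ∈ O} ∈ 𝓝 (1 : V) := by
        have hcont : Continuous (fun g : V => g⁻¹ * x) := continuous_inv.mul continuous_const
        apply (hO.preimage hcont).mem_nhds
        show (1 : V)⁻¹ * x ∈ O
        rw [inv_one, one_mul]
        exact hx
      obtain ⟨k, hk⟩ := THK_small h1
      exact Set.mem_iUnion.2 ⟨k, fun g hg => hk hg⟩
  have h := tendsto_measure_iUnion_atTop (μ := vol V)
    (s := fun k : ℕ => {x : V | ∀ g ∈ (THK_B k : Set V), g⁻¹ * x ∈ O})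
    (fun k l hkl x hx g hg => hx g (THK_anti hkl hg))
  rw [hI] at h
  exact h

end

theorem THK (hMES : MES_stmt) : THK_stmt := by
  intro V _ _ _ _ _ _ hV S O a b hS hO hOS hnull ha hb
  have h1 := (tendsto_order.1 (THK_out hMES hV hS)).2 b hb
  have haO : a < vol V O := by
    have h2 : vol V S ≤ vol V O := by
      calc vol V S ≤ vol V (O ∪ (S \ O)) := measure_mono (by
            intro x hx
            by_cases hxO : x ∈ O
            · exact Or.inl hxO
            · exact Or.inr ⟨hx, hxO⟩)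
        _ ≤ vol V O + vol V (S \ O) := measure_union_le _ _
        _ = vol V O := by rw [hnull, add_zero]
    exact lt_of_lt_of_le ha h2
  have h2 := (tendsto_order.1 (THK_in hV hO)).1 a haO
  obtain ⟨k, hk1, hk2⟩ := (h1.and h2).exists
  refine ⟨THK_B k, THK_nhds k, hk1, lt_of_lt_of_le hk2 ?_⟩
  exact measure_mono fun x hx g hg => hOS (hx g hg)

end Pool.Agent.MLG
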